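import Pool.Agent.Q178.Orth.Final

set_option autoImplicit false

/-!
The iterated orthogonals of the map from the empty space to the one-point space form a finite
family of classes of morphisms of the category of topological spaces.
-/

universe u

namespace Pool.Agent.Results.MP_136091_gt.FinitelyMany

open CategoryTheory Set Topology Q178.Orth

/-- **The iterated orthogonals of `∅ → •` in `Top` form a finite family.** Let `C0` be the class
whose only member is the map from the empty space to the one-point space, and for a word `s` over
the alphabet `{l, r}` let `iter C0 s` be the iterated orthogonal `C0 ^ s`. There are at most `22`
different classes among the classes `iter C0 s`. -/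
theorem result : (range (iter C0.{u})).Finite ∧ (range (iter C0.{u})).ncard ≤ 22 :=
  ⟨range_iter_finite, ncard_range_iter⟩

end Pool.Agent.Results.MP_136091_gt.FinitelyMany
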